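import Pool.Agent.Helper91.FS.Goals4
import Pool.Agent.Helper64.FS.EJR

/-!
# Project FS (MP_0130f7_co), packet ZCNT
-/

set_option autoImplicit false

namespace Pool.Agent.Helper66.FS

open Finset
open Pool.Agent.Helper47.SR (Grp mv lev wt Ew W IsInv up dn StarAt HalfStarAt)
open Pool.Agent.Helper49.NF
open Pool.Agent.Helper91.FS
open Pool.Agent.Helper64.FS

variable {n : ℕ}

theorem le_fx {γ : Equiv.Perm (Fin n)} {T : Finset (Fin n)} (h : ∀ x ∈ T, γ x = x) : #T ≤ fx γ := by
  unfold fx
  apply card_le_card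
  intro x hx
  rw [mem_filter]
  exact ⟨mem_univ _, h x hx⟩

theorem pow_one {G : Grp n} (hG : ∀ γ ∈ G, γ ≠ 1 → fx γ ≤ 2) {γ : Equiv.Perm (Fin n)} (hγ : γ ∈ G)
    (k : ℕ) {T : Finset (Fin n)} (hT : 3 ≤ #T) (h : ∀ x ∈ T, (γ ^ k) x = x) : γ ^ k = 1 := by
  by_contra hne
  have h1 := hG (γ ^ k) (G.pow_mem hγ k) hne
  have h2 := le_fx h
  omega

/-- the fixed points -/
def Fp (γ : Equiv.Perm (Fin n)) : Finset (Fin n) := univ.filter (fun x => γ x = x)

/-- the moved points -/
def Mp (γ : Equiv.Perm (Fin n)) : Finset (Fin n) := univ.filter (fun x => γ x ≠ x)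

/-- the pairs `{x, γ x}` -/
def Pp (γ : Equiv.Perm (Fin n)) : Finset (Finset (Fin n)) := (Mp γ).image (fun x => {x, γ x})

theorem two_pp {γ : Equiv.Perm (Fin n)} (h2 : ∀ x, γ (γ x) = x) : 2 * #(Pp γ) ≤ n := by
  classical
  have h : 2 * #(Pp γ) ≤ #(Mp γ) := by
    unfold Pp
    apply Finset.mul_card_image_le_card
    intro B hB
    rw [mem_image] at hB
    obtain ⟨x, hx, rfl⟩ := hB
    have hx' : γ x ≠ x := by
      unfold Mp at hx
      rw [mem_filter] at hx
      exact hx.2
    have hsub : ({x, γ x} : Finset (Fin n)) ⊆ (Mp γ).filter (fun y => ({y, γ y} : Finset (Fin n)) = {x, γ x}) := by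
      intro y hy
      rw [mem_insert, mem_singleton] at hy
      rw [mem_filter]
      rcases hy with rfl | rfl
      · exact ⟨hx, rfl⟩
      · refine ⟨?_, ?_⟩
        · unfold Mp
          rw [mem_filter]
          refine ⟨mem_univ _, ?_⟩
          rw [h2 x]
          exact fun h => hx' h.symm
        · rw [h2 x, pair_comm]
    have := card_le_card hsub
    rwa [card_pair (fun h => hx' h.symm)] at this
  refine h.trans ?_
  have := card_le_univ (Mp γ)
  rwa [Fintype.card_fin] at this

/-- a moved point of an invariant set with at least three elements -/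
theorem exm {γ : Equiv.Perm (Fin n)} (hf : fx γ ≤ 2) {A : Finset (Fin n)} (hA : 3 ≤ #A) :
    ∃ x ∈ A, γ x ≠ x := by
  by_contra h
  push Not at h
  have := le_fx h
  omega

theorem ord2 {γ : Equiv.Perm (Fin n)} (h1 : γ ≠ 1) (h : γ ^ 2 = 1) : orderOf γ = 2 := by
  have : Fact (Nat.Prime 2) := ⟨Nat.prime_two⟩
  exact orderOf_eq_prime h h1

theorem ord3 {γ : Equiv.Perm (Fin n)} (h1 : γ ≠ 1) (h : γ ^ 3 = 1) : orderOf γ = 3 := by
  have : Fact (Nat.Prime 3) := ⟨Nat.prime_three⟩
  exact orderOf_eq_prime h h1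

theorem sq (γ : Equiv.Perm (Fin n)) (x : Fin n) : (γ ^ 2) x = γ (γ x) := by
  rw [pow_two]; rfl

theorem cu (γ : Equiv.Perm (Fin n)) (x : Fin n) : (γ ^ 3) x = γ (γ (γ x)) := by
  rw [pow_succ, pow_two]; rfl

theorem inv_of_sq {γ : Equiv.Perm (Fin n)} (h : γ ^ 2 = 1) (x : Fin n) : γ (γ x) = x := by
  rw [← sq, h]; rfl

/-- three element sets -/
theorem three {G : Grp n} (hG : ∀ γ ∈ G, γ ≠ 1 → fx γ ≤ 2) {γ : Equiv.Perm (Fin n)} (hγ : γ ∈ G)
    (h1 : γ ≠ 1) {A : Finset (Fin n)} (hA : #A = 3) (hi : ∀ x, γ x ∈ A ↔ x ∈ A) :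
    (γ ^ 2 = 1 ∧ ∃ x z, γ x ≠ x ∧ γ z = z ∧ A = insert z {x, γ x}) ∨
    (γ ^ 3 = 1 ∧ ∃ x, A = {x, γ x, γ (γ x)}) := by
  classical
  obtain ⟨x, hx, hm⟩ := exm (hG γ hγ h1) (A := A) (by omega)
  have hx1 : γ x ∈ A := (hi x).2 hx
  have hx2 : γ (γ x) ∈ A := (hi _).2 hx1
  by_cases c : γ (γ x) = x
  · left
    have hsub : ({x, γ x} : Finset (Fin n)) ⊆ A := by
      intro y hy
      rw [mem_insert, mem_singleton] at hy
      rcases hy with rfl | rfl
      · exact hx
      · exact hx1
    have hcard : #(A \ {x, γ x}) = 1 := by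
      have h2 := card_sdiff_add_card_eq_card hsub
      rw [card_pair (fun h => hm h.symm)] at h2
      omega
    obtain ⟨z, hz⟩ := card_eq_one.1 hcard
    have hzA : z ∈ A \ {x, γ x} := by rw [hz]; exact mem_singleton_self z
    have hz2 := hzA
    rw [mem_sdiff, mem_insert, mem_singleton, not_or] at hz2
    have hfz : γ z = z := by
      have h3 : γ z ∈ A \ {x, γ x} := by
        rw [mem_sdiff, mem_insert, mem_singleton, not_or]
        refine ⟨(hi z).2 hz2.1, fun h => hz2.2.2 ?_, fun h => hz2.2.1 (γ.injective h)⟩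
        rw [← c] at h
        exact γ.injective h
      rw [hz, mem_singleton] at h3
      exact h3
    have hAe : A = insert z {x, γ x} := by
      have h3 := sdiff_union_of_subset hsub
      rw [hz] at h3
      rw [← h3]
      rfl
    refine ⟨pow_one hG hγ 2 (T := A) (by omega) (fun y hy => ?_), x, z, hm, hfz, hAe⟩
    rw [hAe, mem_insert, mem_insert, mem_singleton] at hy
    rw [sq]
    rcases hy with rfl | rfl | rfl
    · rw [hfz, hfz]
    · exact c
    · rw [c]
  · right
    have hsub : ({x, γ x, γ (γ x)} : Finset (Fin n)) ⊆ A := by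
      intro y hy
      simp only [mem_insert, mem_singleton] at hy
      rcases hy with rfl | rfl | rfl
      · exact hx
      · exact hx1
      · exact hx2
    have hc : #({x, γ x, γ (γ x)} : Finset (Fin n)) = 3 := by
      rw [card_eq_three]
      refine ⟨x, γ x, γ (γ x), fun h => hm h.symm, fun h => c h.symm, fun h => hm (γ.injective h.symm), rfl⟩
    have hAe : A = {x, γ x, γ (γ x)} := (eq_of_subset_of_card_le hsub (by omega)).symm
    have h3 : γ (γ (γ x)) = x := by
      have h4 : γ (γ (γ x)) ∈ A := (hi _).2 hx2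
      rw [hAe] at h4
      simp only [mem_insert, mem_singleton] at h4
      rcases h4 with h4 | h4 | h4
      · exact h4
      · exact absurd (γ.injective h4) c
      · exact absurd (γ.injective (γ.injective h4)) hm
    refine ⟨pow_one hG hγ 3 (T := A) (by omega) (fun y hy => ?_), x, hAe⟩
    rw [hAe] at hy
    simp only [mem_insert, mem_singleton] at hy
    rw [cu]
    rcases hy with rfl | rfl | rfl
    · exact h3
    · rw [h3]
    · rw [h3]

/-- four element sets -/
theorem four {G : Grp n} (hG : ∀ γ ∈ G, γ ≠ 1 → fx γ ≤ 2) {γ : Equiv.Perm (Fin n)} (hγ : γ ∈ G)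
    (h1 : γ ≠ 1) {A : Finset (Fin n)} (hA : #A = 4) (hi : ∀ x, γ x ∈ A ↔ x ∈ A) :
    (γ ^ 2 = 1 ∧ ∃ x, (A = {x, γ x} ∪ Fp γ ∨ ∃ y, A = {x, γ x} ∪ {y, γ y})) ∨
    (γ ^ 3 = 1 ∧ ∃ x z, γ z = z ∧ A = insert z {x, γ x, γ (γ x)}) ∨
    (∃ x, A = {x, γ x, γ (γ x), γ (γ (γ x))}) := by
  classical
  obtain ⟨x, hx, hm⟩ := exm (hG γ hγ h1) (A := A) (by omega)
  have hx1 : γ x ∈ A := (hi x).2 hx
  have hx2 : γ (γ x) ∈ A := (hi _).2 hx1
  have hx3 : γ (γ (γ x)) ∈ A := (hi _).2 hx2
  by_cases c : γ (γ x) = x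
  · left
    have hsub : ({x, γ x} : Finset (Fin n)) ⊆ A := by
      intro y hy
      rw [mem_insert, mem_singleton] at hy
      rcases hy with rfl | rfl
      · exact hx
      · exact hx1
    have hcard : #(A \ {x, γ x}) = 2 := by
      have h2 := card_sdiff_add_card_eq_card hsub
      rw [card_pair (fun h => hm h.symm)] at h2
      omega
    have hinv : ∀ z, z ∈ A \ {x, γ x} → γ z ∈ A \ {x, γ x} := by
      intro z hz2
      rw [mem_sdiff, mem_insert, mem_singleton, not_or] at hz2 ⊢
      refine ⟨(hi z).2 hz2.1, fun h => hz2.2.2 ?_, fun h => hz2.2.1 (γ.injective h)⟩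
      rw [← c] at h
      exact γ.injective h
    obtain ⟨z, w, hzw, hz⟩ := card_eq_two.1 hcard
    have hAe : A = {x, γ x} ∪ {z, w} := by
      have h3 := sdiff_union_of_subset hsub
      rw [hz] at h3
      rw [← h3, union_comm]
    have hz1 : γ z ∈ ({z, w} : Finset (Fin n)) := by
      rw [← hz]
      apply hinv
      rw [hz]
      simp
    have hw1 : γ w ∈ ({z, w} : Finset (Fin n)) := by
      rw [← hz]
      apply hinv
      rw [hz]
      simp
    rw [mem_insert, mem_singleton] at hz1 hw1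
    have hγ2 : (∀ y ∈ A, (γ ^ 2) y = y) → γ ^ 2 = 1 := fun h => pow_one hG hγ 2 (T := A) (by omega) h
    rcases hz1 with hz1 | hz1
    · -- both fixed
      have hw2 : γ w = w := by
        rcases hw1 with hw1 | hw1
        · exact absurd (γ.injective (hw1.trans hz1.symm)) (fun h => hzw h.symm)
        · exact hw1
      refine ⟨hγ2 fun y hy => ?_, x, Or.inl ?_⟩
      · rw [hAe] at hy
        simp only [mem_union, mem_insert, mem_singleton] at hy
        rw [sq]
        rcases hy with (rfl | rfl) | (rfl | rfl)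
        · exact c
        · rw [c]
        · rw [hz1, hz1]
        · rw [hw2, hw2]
      · have hF : ({z, w} : Finset (Fin n)) ⊆ Fp γ := by
          intro y hy
          rw [mem_insert, mem_singleton] at hy
          unfold Fp
          rw [mem_filter]
          rcases hy with rfl | rfl
          · exact ⟨mem_univ _, hz1⟩
          · exact ⟨mem_univ _, hw2⟩
        have hFc : #(Fp γ) ≤ 2 := hG γ hγ h1
        have : ({z, w} : Finset (Fin n)) = Fp γ :=
          eq_of_subset_of_card_le hF (by rw [card_pair hzw]; exact hFc)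
        rw [hAe, this]
    · have hw2 : γ w = z := by
        rcases hw1 with hw1 | hw1
        · exact hw1
        · exact absurd (γ.injective (hz1.trans hw1.symm)) hzw
      refine ⟨hγ2 fun y hy => ?_, x, Or.inr ⟨z, ?_⟩⟩
      · rw [hAe] at hy
        simp only [mem_union, mem_insert, mem_singleton] at hy
        rw [sq]
        rcases hy with (rfl | rfl) | (rfl | rfl)
        · exact c
        · rw [c]
        · rw [hz1, hw2]
        · rw [hw2, hz1]
      · rw [hAe, hz1]
  · right
    by_cases c3 : γ (γ (γ x)) = x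
    · left
      have hsub : ({x, γ x, γ (γ x)} : Finset (Fin n)) ⊆ A := by
        intro y hy
        simp only [mem_insert, mem_singleton] at hy
        rcases hy with rfl | rfl | rfl
        · exact hx
        · exact hx1
        · exact hx2
      have hc : #({x, γ x, γ (γ x)} : Finset (Fin n)) = 3 := by
        rw [card_eq_three]
        refine ⟨x, γ x, γ (γ x), fun h => hm h.symm, fun h => c h.symm, fun h => hm (γ.injective h.symm), rfl⟩
      have hcard : #(A \ {x, γ x, γ (γ x)}) = 1 := by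
        have h2 := card_sdiff_add_card_eq_card hsub
        omega
      obtain ⟨z, hz⟩ := card_eq_one.1 hcard
      have hzA : z ∈ A \ {x, γ x, γ (γ x)} := by rw [hz]; exact mem_singleton_self z
      have hz2 := hzA
      simp only [mem_sdiff, mem_insert, mem_singleton, not_or] at hz2
      have hfz : γ z = z := by
        have h3 : γ z ∈ A \ {x, γ x, γ (γ x)} := by
          simp only [mem_sdiff, mem_insert, mem_singleton, not_or]
          refine ⟨(hi z).2 hz2.1, fun h => hz2.2.2.2 ?_, fun h => hz2.2.1 (γ.injective h),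
            fun h => hz2.2.2.1 (γ.injective h)⟩
          rw [← c3] at h
          exact γ.injective h
        rw [hz, mem_singleton] at h3
        exact h3
      have hAe : A = insert z {x, γ x, γ (γ x)} := by
        have h3 := sdiff_union_of_subset hsub
        rw [hz] at h3
        rw [← h3]
        rfl
      refine ⟨pow_one hG hγ 3 (T := A) (by omega) (fun y hy => ?_), x, z, hfz, hAe⟩
      rw [hAe] at hy
      simp only [mem_insert, mem_singleton] at hy
      rw [cu]
      rcases hy with rfl | rfl | rfl | rfl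
      · rw [hfz, hfz, hfz]
      · exact c3
      · rw [c3]
      · rw [c3]
    · right
      refine ⟨x, (eq_of_subset_of_card_le ?_ ?_).symm⟩
      · intro y hy
        simp only [mem_insert, mem_singleton] at hy
        rcases hy with rfl | rfl | rfl | rfl
        · exact hx
        · exact hx1
        · exact hx2
        · exact hx3
      · rw [hA]
        have hc : #({x, γ x, γ (γ x), γ (γ (γ x))} : Finset (Fin n)) = 4 := by
          rw [card_insert_of_notMem, card_eq_three.2]
          · refine ⟨γ x, γ (γ x), γ (γ (γ x)), fun h => hm (γ.injective h.symm),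
              fun h => c (γ.injective h.symm), fun h => hm (γ.injective (γ.injective h.symm)), rfl⟩
          · simp only [mem_insert, mem_singleton, not_or]
            exact ⟨fun h => hm h.symm, fun h => c h.symm, fun h => c3 h.symm⟩
        omega

theorem b3 {G : Grp n} (hG : ∀ γ ∈ G, γ ≠ 1 → fx γ ≤ 2) {γ : Equiv.Perm (Fin n)} (hγ : γ ∈ G)
    (h1 : γ ≠ 1) :
    #(N γ 3) ≤ (if orderOf γ = 2 then n else 0) + (if orderOf γ = 3 then n else 0) := by
  classical
  by_cases o2 : γ ^ 2 = 1
  · have ho := ord2 h1 o2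
    rw [if_pos ho]
    have hsub : N γ 3 ⊆ (Fp γ ×ˢ Pp γ).image (fun p => insert p.1 p.2) := by
      intro A hA
      obtain ⟨hA3, hAi⟩ := mem_N.1 hA
      rcases three hG hγ h1 hA3 hAi with ⟨-, x, z, hx, hz, hAe⟩ | ⟨o3, -⟩
      · rw [mem_image]
        refine ⟨(z, {x, γ x}), ?_, hAe.symm⟩
        rw [mem_product]
        refine ⟨by unfold Fp; simpa using hz, ?_⟩
        unfold Pp Mp
        rw [mem_image]
        exact ⟨x, by simpa using hx, rfl⟩
      · exfalso
        apply h1
        have : γ ^ 3 = γ ^ 2 * γ := pow_succ γ 2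
        rw [o3, o2, one_mul] at this
        exact this.symm
    have h2 := two_pp (inv_of_sq o2)
    have h3 : #(Fp γ) ≤ 2 := hG γ hγ h1
    calc #(N γ 3) ≤ #((Fp γ ×ˢ Pp γ).image (fun p => insert p.1 p.2)) := card_le_card hsub
      _ ≤ #(Fp γ) * #(Pp γ) := card_image_le.trans (le_of_eq (card_product _ _))
      _ ≤ 2 * #(Pp γ) := Nat.mul_le_mul_right _ h3
      _ ≤ n := h2
      _ ≤ _ := Nat.le_add_right _ _
  · have hsub : N γ 3 ⊆ (univ : Finset (Fin n)).image (fun x => {x, γ x, γ (γ x)}) := by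
      intro A hA
      obtain ⟨hA3, hAi⟩ := mem_N.1 hA
      rcases three hG hγ h1 hA3 hAi with ⟨o2', -⟩ | ⟨o3, x, hAe⟩
      · exact absurd o2' o2
      · rw [mem_image]
        exact ⟨x, mem_univ _, hAe.symm⟩
    by_cases o3 : γ ^ 3 = 1
    · rw [if_pos (ord3 h1 o3)]
      calc #(N γ 3) ≤ _ := card_le_card hsub
        _ ≤ n := card_image_le.trans (by rw [card_univ, Fintype.card_fin])
        _ ≤ _ := Nat.le_add_left _ _
    · have : N γ 3 = ∅ := by
        rw [eq_empty_iff_forall_notMem]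
        intro A hA
        obtain ⟨hA3, hAi⟩ := mem_N.1 hA
        rcases three hG hγ h1 hA3 hAi with ⟨o2', -⟩ | ⟨o3', -⟩
        · exact o2 o2'
        · exact o3 o3'
      rw [this]
      simp

theorem b4 {G : Grp n} (hG : ∀ γ ∈ G, γ ≠ 1 → fx γ ≤ 2) {γ : Equiv.Perm (Fin n)} (hγ : γ ∈ G)
    (h1 : γ ≠ 1) :
    #(N γ 4) ≤ (if orderOf γ = 2 then 2 * n ^ 2 else 0) + (if orderOf γ = 3 then 2 * n else 0) + n := by
  classical
  set C4 : Finset (Finset (Fin n)) :=
    (univ : Finset (Fin n)).image (fun x => {x, γ x, γ (γ x), γ (γ (γ x))}) with hC4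
  have hC4c : #C4 ≤ n := card_image_le.trans (by rw [card_univ, Fintype.card_fin])
  by_cases o2 : γ ^ 2 = 1
  · rw [if_pos (ord2 h1 o2)]
    have hsub : N γ 4 ⊆ ((univ : Finset (Fin n)).image (fun x => {x, γ x} ∪ Fp γ) ∪
        ((univ : Finset (Fin n)) ×ˢ (univ : Finset (Fin n))).image
          (fun p => {p.1, γ p.1} ∪ {p.2, γ p.2})) ∪ C4 := by
      intro A hA
      obtain ⟨hA4, hAi⟩ := mem_N.1 hA
      rcases four hG hγ h1 hA4 hAi with ⟨-, x, hAe | ⟨y, hAe⟩⟩ | ⟨o3, -⟩ | ⟨x, hAe⟩
      · rw [mem_union, mem_union]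
        exact Or.inl (Or.inl (mem_image.2 ⟨x, mem_univ _, hAe.symm⟩))
      · rw [mem_union, mem_union]
        exact Or.inl (Or.inr (mem_image.2 ⟨(x, y), by simp, hAe.symm⟩))
      · exfalso
        apply h1
        have : γ ^ 3 = γ ^ 2 * γ := pow_succ γ 2
        rw [o3, o2, one_mul] at this
        exact this.symm
      · rw [mem_union]
        exact Or.inr (mem_image.2 ⟨x, mem_univ _, hAe.symm⟩)
    have e1 : #((univ : Finset (Fin n)).image (fun x => ({x, γ x} ∪ Fp γ : Finset (Fin n)))) ≤ n :=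
      card_image_le.trans (by rw [card_univ, Fintype.card_fin])
    have e2 : #(((univ : Finset (Fin n)) ×ˢ (univ : Finset (Fin n))).image
          (fun p => ({p.1, γ p.1} ∪ {p.2, γ p.2} : Finset (Fin n)))) ≤ n ^ 2 :=
      card_image_le.trans (by rw [card_product, card_univ, Fintype.card_fin, pow_two])
    have e3 : n ≤ n ^ 2 := by
      rcases Nat.eq_zero_or_pos n with h | h
      · simp [h]
      · exact Nat.le_self_pow (by norm_num) n
    calc #(N γ 4) ≤ _ := card_le_card hsub
      _ ≤ _ := card_union_le _ _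
      _ ≤ _ := Nat.add_le_add_right (card_union_le _ _) _
      _ ≤ n + n ^ 2 + n := Nat.add_le_add (Nat.add_le_add e1 e2) hC4c
      _ ≤ _ := by omega
  · by_cases o3 : γ ^ 3 = 1
    · rw [if_pos (ord3 h1 o3)]
      have hsub : N γ 4 ⊆ (Fp γ ×ˢ (univ : Finset (Fin n))).image
          (fun p => insert p.1 {p.2, γ p.2, γ (γ p.2)}) ∪ C4 := by
        intro A hA
        obtain ⟨hA4, hAi⟩ := mem_N.1 hA
        rcases four hG hγ h1 hA4 hAi with ⟨o2', -⟩ | ⟨-, x, z, hz, hAe⟩ | ⟨x, hAe⟩
        · exact absurd o2' o2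
        · rw [mem_union]
          refine Or.inl (mem_image.2 ⟨(z, x), ?_, hAe.symm⟩)
          rw [mem_product]
          exact ⟨by unfold Fp; simpa using hz, mem_univ _⟩
        · rw [mem_union]
          exact Or.inr (mem_image.2 ⟨x, mem_univ _, hAe.symm⟩)
      have h3 : #(Fp γ) ≤ 2 := hG γ hγ h1
      have e1 : #((Fp γ ×ˢ (univ : Finset (Fin n))).image
          (fun p => (insert p.1 {p.2, γ p.2, γ (γ p.2)} : Finset (Fin n)))) ≤ 2 * n :=
        card_image_le.trans (by
          rw [card_product, card_univ, Fintype.card_fin]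
          exact Nat.mul_le_mul_right _ h3)
      calc #(N γ 4) ≤ _ := card_le_card hsub
        _ ≤ _ := card_union_le _ _
        _ ≤ 2 * n + n := Nat.add_le_add e1 hC4c
        _ ≤ _ := by omega
    · have hsub : N γ 4 ⊆ C4 := by
        intro A hA
        obtain ⟨hA4, hAi⟩ := mem_N.1 hA
        rcases four hG hγ h1 hA4 hAi with ⟨o2', -⟩ | ⟨o3', -⟩ | ⟨x, hAe⟩
        · exact absurd o2' o2
        · exact absurd o3' o3
        · exact mem_image.2 ⟨x, mem_univ _, hAe.symm⟩
      exact (card_le_card hsub).trans (hC4c.trans (Nat.le_add_left _ _))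

theorem goal_ZCNT : Goal_ZCNT := by
  intro n G hG
  classical
  have hmem : ∀ γ ∈ (els G).filter (fun γ => γ ≠ 1), γ ∈ G ∧ γ ≠ 1 := by
    intro γ hγ
    rw [mem_filter] at hγ
    refine ⟨?_, hγ.2⟩
    have := hγ.1
    unfold els at this
    simpa using this
  have hs : ∀ (k c : ℕ), ∑ γ ∈ els G, (if orderOf γ = k then c else 0) =
      c * #((els G).filter (fun γ => orderOf γ = k)) := by
    intro k c
    rw [← sum_filter, sum_const, smul_eq_mul, mul_comm]
  constructor
  · rw [Ew_eq]
    calc ∑ γ ∈ (els G).filter (fun γ => γ ≠ 1), #(N γ 3)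
        ≤ ∑ γ ∈ (els G).filter (fun γ => γ ≠ 1),
          ((if orderOf γ = 2 then n else 0) + (if orderOf γ = 3 then n else 0)) :=
          sum_le_sum fun γ hγ => b3 hG (hmem γ hγ).1 (hmem γ hγ).2
      _ ≤ ∑ γ ∈ els G, ((if orderOf γ = 2 then n else 0) + (if orderOf γ = 3 then n else 0)) :=
          sum_le_sum_of_subset (filter_subset _ _)
      _ = _ := by rw [sum_add_distrib, hs, hs, mul_add]
  · rw [Ew_eq]
    calc ∑ γ ∈ (els G).filter (fun γ => γ ≠ 1), #(N γ 4)
        ≤ ∑ γ ∈ (els G).filter (fun γ => γ ≠ 1),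
          ((if orderOf γ = 2 then 2 * n ^ 2 else 0) + (if orderOf γ = 3 then 2 * n else 0) + n) :=
          sum_le_sum fun γ hγ => b4 hG (hmem γ hγ).1 (hmem γ hγ).2
      _ ≤ ∑ γ ∈ els G,
          ((if orderOf γ = 2 then 2 * n ^ 2 else 0) + (if orderOf γ = 3 then 2 * n else 0) + n) :=
          sum_le_sum_of_subset (filter_subset _ _)
      _ = _ := by rw [sum_add_distrib, sum_add_distrib, hs, hs, sum_const, smul_eq_mul, mul_comm #(els G)]

end Pool.Agent.Helper66.FS
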